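import Mathlib
import Pool.Agent.H.MP_180e15_co.A

namespace Pool.Agent.Results.MP_180e15_co.Bound

open Finset Classical

variable {P : Type} [PartialOrder P] {n : ℕ}

/-- the label of `x`, in `1..n` -/
def lab (L : P ≃ Fin n) (x : P) : ℕ := (L x).val + 1

/-- the element above `x` with the smallest label; `x` itself if there is none -/
noncomputable def succ (L : P ≃ Fin n) (x : P) : P :=
  if h : ∃ y, x < y ∧ ∀ z, x < z → lab L y ≤ lab L z then h.choose else x

/-- `x` lies on the promotion chain of `L` -/
def OnChain (L : P ≃ Fin n) (x : P) : Prop :=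
  ∃ v k, lab L v = 1 ∧ (succ L)^[k] v = x

/-- the new label of `x` after extended promotion -/
noncomputable def prom (L : P ≃ Fin n) (x : P) : ℕ :=
  if OnChain L x then (if IsMax x then n else lab L (succ L x) - 1) else lab L x - 1

theorem lab_inj (L : P ≃ Fin n) {x y : P} (h : lab L x = lab L y) : x = y :=
  L.injective (Fin.ext (by unfold lab at h; omega))

theorem lab_le (L : P ≃ Fin n) (x : P) : 1 ≤ lab L x ∧ lab L x ≤ n := by
  have := (L x).2
  unfold lab
  omega

theorem succ_spec (L : P ≃ Fin n) (x : P) (hx : ¬ IsMax x) :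
    x < succ L x ∧ ∀ z, x < z → lab L (succ L x) ≤ lab L z := by
  have h : ∃ y, x < y ∧ ∀ z, x < z → lab L y ≤ lab L z := by
    obtain ⟨y, hy⟩ := not_isMax_iff.1 hx
    have hex : ∃ k, ∃ y, x < y ∧ lab L y = k := ⟨_, y, hy, rfl⟩
    obtain ⟨w, hw, he⟩ := Nat.find_spec hex
    exact ⟨w, hw, fun z hz => he ▸ Nat.find_min' hex ⟨z, hz, rfl⟩⟩
  unfold succ
  rw [dif_pos h]
  exact h.choose_spec

theorem succ_max (L : P ≃ Fin n) (x : P) (hx : IsMax x) : succ L x = x := by
  unfold succ
  rw [dif_neg]
  rintro ⟨y, hy, _⟩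
  exact hx.not_lt hy

theorem le_succ (L : P ≃ Fin n) (x : P) : x ≤ succ L x := by
  by_cases h : IsMax x
  · rw [succ_max L x h]
  · exact (succ_spec L x h).1.le

theorem iter_mono (L : P ≃ Fin n) (v : P) : Monotone fun k => (succ L)^[k] v :=
  monotone_nat_of_le_succ fun k => by
    simp only [Function.iterate_succ_apply']
    exact le_succ L _

theorem chain_succ (L : P ≃ Fin n) {x : P} (h : OnChain L x) : OnChain L (succ L x) := by
  obtain ⟨v, k, hv, rfl⟩ := h
  exact ⟨v, k + 1, hv, Function.iterate_succ_apply' _ _ _⟩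

theorem chain_cmp (L : P ≃ Fin n) {x y : P} (hx : OnChain L x) (hy : OnChain L y) :
    x ≤ y ∨ y ≤ x := by
  obtain ⟨v, k, hv, rfl⟩ := hx
  obtain ⟨w, j, hw, rfl⟩ := hy
  obtain rfl := lab_inj L (hv.trans hw.symm)
  rcases le_total k j with h | h
  · exact Or.inl (iter_mono L v h)
  · exact Or.inr (iter_mono L v h)

theorem succ_le (L : P ≃ Fin n) {x y : P} (hx : OnChain L x) (hy : OnChain L y) (h : x < y) :
    succ L x ≤ y := by
  obtain ⟨v, k, hv, rfl⟩ := hx
  obtain ⟨w, j, hw, rfl⟩ := hy
  obtain rfl := lab_inj L (hv.trans hw.symm)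
  rcases le_or_gt j k with h1 | h1
  · exact absurd h (not_lt_of_ge (iter_mono L v h1))
  · rw [← Function.iterate_succ_apply' (succ L)]
    exact iter_mono L v h1

theorem first_le (L : P ≃ Fin n) {v x : P} (hv : lab L v = 1) (hx : OnChain L x) : v ≤ x := by
  obtain ⟨w, j, hw, rfl⟩ := hx
  obtain rfl := lab_inj L (hv.trans hw.symm)
  exact iter_mono L v (Nat.zero_le j)

theorem exists_max (L : P ≃ Fin n) (hn : 0 < n) : ∃ t, OnChain L t ∧ IsMax t := by
  haveI : Finite P := Finite.of_equiv _ L.symm
  have h0 : OnChain L (L.symm ⟨0, hn⟩) := ⟨_, 0, by simp [lab], rfl⟩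
  obtain ⟨t, ht, hmin⟩ := (wellFounded_gt (α := P)).has_min {x | OnChain L x} ⟨_, h0⟩
  refine ⟨t, ht, ?_⟩
  by_contra hm
  exact hmin _ (chain_succ L ht) (succ_spec L t hm).1

theorem prom_not (L : P ≃ Fin n) {x : P} (h : ¬ OnChain L x) : prom L x + 1 = lab L x := by
  have := lab_le L x
  simp only [prom, h, if_false]
  omega

theorem prom_mid (L : P ≃ Fin n) {x : P} (h : OnChain L x) (hm : ¬ IsMax x) :
    prom L x + 1 = lab L (succ L x) := by
  have := lab_le L (succ L x)
  simp only [prom, h, hm, if_true, if_false]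
  omega

theorem prom_top (L : P ≃ Fin n) {x : P} (h : OnChain L x) (hm : IsMax x) : prom L x = n := by
  simp only [prom, h, hm, if_true]

theorem prom_range (L : P ≃ Fin n) (x : P) : 1 ≤ prom L x ∧ prom L x ≤ n := by
  have h1 := lab_le L x
  by_cases h : OnChain L x
  · by_cases hm : IsMax x
    · rw [prom_top L h hm]; omega
    · have h2 := prom_mid L h hm
      have h3 := lab_le L (succ L x)
      have : lab L (succ L x) ≠ 1 := fun e =>
        not_lt_of_ge (first_le L e h) (succ_spec L x hm).1
      omega
  · have h2 := prom_not L h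
    have : lab L x ≠ 1 := fun e => h ⟨x, 0, e, rfl⟩
    omega

theorem record (L : P ≃ Fin n) {c y : P} (hc : OnChain L c) (h : c < y) :
    prom L c < prom L y := by
  have hm : ¬ IsMax c := not_isMax_of_lt h
  have h1 := prom_mid L hc hm
  have sp := succ_spec L c hm
  by_cases hy : OnChain L y
  · by_cases hym : IsMax y
    · rw [prom_top L hy hym]
      have := lab_le L (succ L c)
      omega
    · have h2 := prom_mid L hy hym
      have h3 := (succ_spec L y hym).1
      have h4 := sp.2 _ (h.trans h3)
      have : lab L (succ L c) ≠ lab L (succ L y) := fun e =>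
        not_lt_of_ge (lab_inj L e ▸ succ_le L hc hy h) h3
      omega
  · have h2 := prom_not L hy
    have h4 := sp.2 _ h
    have : lab L (succ L c) ≠ lab L y := fun e => hy (lab_inj L e ▸ chain_succ L hc)
    omega

theorem prom_inj (L : P ≃ Fin n) {x y : P} (h : prom L x = prom L y) : x = y := by
  have mix : ∀ {x y : P}, OnChain L x → ¬ OnChain L y → prom L x ≠ prom L y := by
    intro x y hx hy h
    have h2 := prom_not L hy
    have h3 := lab_le L y
    by_cases hm : IsMax x
    · rw [prom_top L hx hm] at h; omega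
    · have h1 := prom_mid L hx hm
      exact hy (lab_inj L (show lab L (succ L x) = lab L y by omega) ▸ chain_succ L hx)
  by_cases hx : OnChain L x <;> by_cases hy : OnChain L y
  · by_contra hne
    rcases chain_cmp L hx hy with h1 | h1
    · have := record L hx (lt_of_le_of_ne h1 hne); omega
    · have := record L hy (lt_of_le_of_ne h1 (Ne.symm hne)); omega
  · exact absurd h (mix hx hy)
  · exact absurd h.symm (mix hy hx)
  · have h1 := prom_not L hx
    have h2 := prom_not L hy
    exact lab_inj L (by omega)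

theorem determined (L K : P ≃ Fin n) (h : ∀ x, prom L x = prom K x)
    (hc : ∀ x, OnChain L x ↔ OnChain K x) : L = K := by
  have key : ∀ x, lab L x = lab K x := by
    intro x
    by_cases hx : OnChain L x
    · obtain ⟨v, k, hv, rfl⟩ := hx
      have hvL : OnChain L v := ⟨v, 0, hv, rfl⟩
      induction k with
      | zero =>
        obtain ⟨w, j, hw, hj⟩ := (hc v).1 hvL
        have : v = w := le_antisymm (first_le L hv ((hc w).2 ⟨w, 0, hw, rfl⟩))
          (first_le K hw ((hc v).1 hvL))
        subst this
        exact hv.trans hw.symm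
      | succ k ih =>
        rw [Function.iterate_succ_apply']
        have hx : OnChain L ((succ L)^[k] v) := ⟨v, k, hv, rfl⟩
        generalize (succ L)^[k] v = c at hx ih
        by_cases hm : IsMax c
        · rw [succ_max L c hm]; exact ih
        · have e : succ L c = succ K c := le_antisymm
            (succ_le L hx ((hc _).2 (chain_succ K ((hc c).1 hx))) (succ_spec K c hm).1)
            (succ_le K ((hc c).1 hx) ((hc _).1 (chain_succ L hx)) (succ_spec L c hm).1)
          rw [← prom_mid L hx hm, h, prom_mid K ((hc c).1 hx) hm, e]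
    · rw [← prom_not L hx, h, prom_not K (fun e => hx ((hc x).2 e))]
  ext x
  have := key x
  unfold lab at this
  omega

open Pool.Agent.H.MP_180e15_co in
theorem fiber_le [Fintype P] (hn : 0 < n) (M : P ≃ Fin n) :
    (univ.filter fun L : P ≃ Fin n => ∀ x, prom L x = lab M x).card ≤
      N (List.ofFn M.symm) univ := by
  rcases (univ.filter fun L : P ≃ Fin n => ∀ x, prom L x = lab M x).eq_empty_or_nonempty with
    he | ⟨L0, hL0⟩
  · rw [he]; simp
  obtain ⟨t, ht0, ht⟩ := exists_max L0 hn
  have htn : lab M t = n := by rw [← (mem_filter.1 hL0).2, prom_top L0 ht0 ht]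
  have top : ∀ L : P ≃ Fin n, (∀ x, prom L x = lab M x) → ∀ x, (OnChain L x ∧ IsMax x) ↔ x = t := by
    intro L hL x
    have a : ∀ x, (OnChain L x ∧ IsMax x) → x = t := fun x hx =>
      lab_inj M (by rw [← hL, prom_top L hx.1 hx.2, htn])
    refine ⟨a x, ?_⟩
    rintro rfl
    obtain ⟨s, hs⟩ := exists_max L hn
    exact a s hs ▸ hs
  have mem : ∀ x, x ∈ List.ofFn M.symm := fun x => List.mem_ofFn.2 ⟨M x, by simp⟩
  rw [← card_image_of_injOn (f := fun L : P ≃ Fin n => univ.filter fun x => OnChain L x ∧ ¬ IsMax x)]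
  · refine chains_le (lab M) t ht _ ?_ (mem t) univ (mem_univ _) _ ?_ ?_ ?_
    · rw [List.pairwise_ofFn]
      intro i j hij
      simpa [lab] using hij
    · intro C hC
      obtain ⟨L, hL, rfl⟩ := mem_image.1 hC
      have hL := (mem_filter.1 hL).2
      refine ⟨fun c hc => ?_, fun c hc d hd =>
        chain_cmp L (mem_filter.1 hc).2.1 (mem_filter.1 hd).2.1⟩
      obtain ⟨h1, h2⟩ := (mem_filter.1 hc).2
      refine ⟨mem_univ _, mem c, ?_, fun y hy => by rw [← hL, ← hL]; exact record L h1 hy⟩
      rcases chain_cmp L h1 ((top L hL t).2 rfl).1 with h | h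
      · exact lt_of_le_of_ne h (fun e => h2 (e ▸ ht))
      · exact absurd (le_antisymm (ht h) h ▸ ht) h2
    · intro c hc _
      have := lab_le M c
      have : lab M c ≠ lab M t := fun e => hc.ne (lab_inj M e)
      omega
    · intro z _
      have := lab_le M z
      omega
  · intro L hL K hK h
    have hL := (mem_filter.1 (mem_coe.1 hL)).2
    have hK := (mem_filter.1 (mem_coe.1 hK)).2
    refine determined L K (fun x => by rw [hL, hK]) fun x => ?_
    have h1 := Finset.ext_iff.1 h x
    simp only [mem_filter, mem_univ, true_and] at h1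
    have h2 := top L hL x
    have h3 := top K hK x
    tauto

open Pool.Agent.H.MP_180e15_co in
theorem result (P : Type) [Fintype P] [PartialOrder P] (n : ℕ) (hn : 1 ≤ n)
    (hP : Fintype.card P = n) :
    (∀ L : P ≃ Fin n, ∃ M : P ≃ Fin n, ∀ x, prom L x = lab M x) ∧
    (∑ M : P ≃ Fin n, ((univ.filter fun L : P ≃ Fin n => ∀ x, prom L x = lab M x).card : ℚ) ^ 2)
      / (Fintype.card (P ≃ Fin n) : ℚ) ≤ ((n : ℚ) + 2) * (n + 1) / 6 := by
  constructor
  · intro L
    let f : P → Fin n := fun x => ⟨prom L x - 1, by have := prom_range L x; omega⟩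
    have hf : Function.Injective f := by
      intro x y h
      have h1 := prom_range L x
      have h2 := prom_range L y
      have : prom L x - 1 = prom L y - 1 := congrArg Fin.val h
      exact prom_inj L (by omega)
    refine ⟨Equiv.ofBijective f ((Fintype.bijective_iff_injective_and_card f).2
      ⟨hf, by simpa using hP⟩), fun x => ?_⟩
    have h1 := prom_range L x
    show prom L x = prom L x - 1 + 1
    omega
  · obtain ⟨m, rfl⟩ : ∃ m, n = m + 1 := ⟨n - 1, by omega⟩
    have h1 := main (P := P) m univ (by simpa using hP) univ subset_rfl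
    have h2 : ∑ M : P ≃ Fin (m + 1),
        ((univ.filter fun L : P ≃ Fin (m + 1) => ∀ x, prom L x = lab M x).card : ℤ) ^ 2 ≤
        ∑ l ∈ perms (univ : Finset P), (N l univ : ℤ) ^ 2 := by
      calc _ ≤ ∑ M : P ≃ Fin (m + 1), (N (List.ofFn M.symm) univ : ℤ) ^ 2 := by
            refine sum_le_sum fun M _ => ?_
            have := fiber_le hn M
            gcongr
        _ = ∑ l ∈ univ.image (fun M : P ≃ Fin (m + 1) => List.ofFn M.symm),
              (N l univ : ℤ) ^ 2 := by
            rw [sum_image]
            intro M _ K _ h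
            have := List.ofFn_injective h
            exact Equiv.symm_bijective.1 (DFunLike.coe_injective this)
        _ ≤ _ := by
            refine sum_le_sum_of_subset_of_nonneg ?_ (fun _ _ _ => by positivity)
            intro l hl
            obtain ⟨M, _, rfl⟩ := mem_image.1 hl
            refine (mem_perms _ _).2 ⟨List.nodup_ofFn.2 M.symm.injective, ?_⟩
            ext x
            simp only [List.mem_toFinset, mem_univ, iff_true]
            exact List.mem_ofFn.2 ⟨M x, by simp⟩
    have hc : Fintype.card (P ≃ Fin (m + 1)) = (m + 1).factorial := by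
      rw [Fintype.card_equiv (Fintype.equivFinOfCardEq hP), hP]
    rw [hc, div_le_div_iff₀ (by positivity) (by norm_num), Nat.factorial_succ]
    rw [card_univ, hP] at h1
    have h3 : (∑ M : P ≃ Fin (m + 1),
        ((univ.filter fun L : P ≃ Fin (m + 1) => ∀ x, prom L x = lab M x).card : ℤ) ^ 2) * 6 ≤
        (((m + 1 : ℕ) : ℤ) + 2) * ((m + 1 : ℕ) + 1) * (((m + 1) * m.factorial : ℕ) : ℤ) := by
      push_cast at h1 ⊢
      nlinarith
    exact_mod_cast h3

end Pool.Agent.Results.MP_180e15_co.Bound
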